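import Pool.Agent.L7h62.SD.Defs

/-!
# Polynomials without one variable which are mapped to zero by `Phi`
-/

set_option autoImplicit false

open MvPolynomial

namespace Pool.Agent.L7h73.SD

open Pool.Agent.L7h62.SD

/-- the chain rule -/
lemma chain {σ τ : Type*} [Fintype σ] (g : σ → MvPolynomial τ ℂ) (v : τ) (F : MvPolynomial σ ℂ) :
    pderiv v (aeval g F) = ∑ q, aeval g (pderiv q F) * pderiv v (g q) := by
  classical
  induction F using MvPolynomial.induction_on with
  | C c =>
    rw [aeval_C]
    have h1 : pderiv v (algebraMap ℂ (MvPolynomial τ ℂ) c) = 0 := pderiv_C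
    rw [h1]
    symm
    apply Finset.sum_eq_zero
    intro q _
    rw [pderiv_C, map_zero, zero_mul]
  | add p q hp hq =>
    rw [map_add, map_add, hp, hq, ← Finset.sum_add_distrib]
    refine Finset.sum_congr rfl fun i _ => ?_
    rw [map_add, map_add, add_mul]
  | mul_X p i hp =>
    rw [map_mul, aeval_X, pderiv_mul, hp]
    have h1 : ∀ q, aeval g (pderiv q (p * X i)) * pderiv v (g q) =
        aeval g (pderiv q p) * pderiv v (g q) * g i +
          (if q = i then aeval g p * pderiv v (g i) else 0) := by
      intro q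
      rw [pderiv_mul, pderiv_X, map_add, map_mul, map_mul, aeval_X]
      by_cases h : q = i
      · subst h
        rw [Pi.single_eq_same, map_one, if_pos rfl]
        ring
      · rw [Pi.single_eq_of_ne (Ne.symm h), map_zero, if_neg h]
        ring
    rw [Finset.sum_congr rfl fun q _ => h1 q, Finset.sum_add_distrib, Finset.sum_mul,
      Finset.sum_ite_eq' Finset.univ i, if_pos (Finset.mem_univ _)]

lemma totalDegree_pderiv {σ : Type*} {F : MvPolynomial σ ℂ} {d : ℕ} (hF : F.totalDegree ≤ d + 1)
    (i : σ) : (pderiv i F).totalDegree ≤ d := by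
  rw [totalDegree]
  apply Finset.sup_le
  intro s hs
  rw [mem_support_iff, coeff_pderiv] at hs
  have h1 : s + Finsupp.single i 1 ∈ F.support := by
    rw [mem_support_iff]
    exact left_ne_zero_of_mul hs
  have h2 := (le_totalDegree h1).trans hF
  rw [Finsupp.sum_add_index' (fun _ => rfl) (fun _ _ _ => rfl),
    Finsupp.sum_single_index rfl] at h2
  omega

lemma notMem_vars_pderiv {σ : Type*} {F : MvPolynomial σ ℂ} {z : σ} (h : z ∉ F.vars) (i : σ) :
    z ∉ (pderiv i F).vars := by
  intro hz
  apply h
  rw [mem_vars_iff_mem_support] at hz ⊢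
  obtain ⟨s, hs, hzs⟩ := hz
  rw [mem_support_iff, coeff_pderiv] at hs
  refine ⟨s + Finsupp.single i 1, ?_, ?_⟩
  · rw [mem_support_iff]
    exact left_ne_zero_of_mul hs
  · rw [Finsupp.mem_support_iff] at hzs ⊢
    rw [Finsupp.add_apply]
    omega

lemma notMem_vars_of_pderiv {σ : Type*} {F : MvPolynomial σ ℂ} {i : σ} (h : pderiv i F = 0) :
    i ∉ F.vars := by
  intro hz
  rw [mem_vars_iff_mem_support] at hz
  obtain ⟨s, hs, hzs⟩ := hz
  rw [Finsupp.mem_support_iff] at hzs
  have h1 : (s - Finsupp.single i 1) + Finsupp.single i 1 = s := by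
    ext q
    rw [Finsupp.add_apply, Finsupp.tsub_apply]
    by_cases hq : q = i
    · subst hq
      rw [Finsupp.single_eq_same]
      omega
    · rw [Finsupp.single_eq_of_ne hq]
      omega
  have h2 := congrArg (coeff (s - Finsupp.single i 1)) h
  rw [coeff_pderiv, coeff_zero, h1] at h2
  rw [mem_support_iff] at hs
  rcases mul_eq_zero.1 h2 with h3 | h3
  · exact hs h3
  · exact Nat.cast_add_one_ne_zero _ h3

/-- the matrix of the derivatives -/
noncomputable def Jm (n m : ℕ) : Matrix (Fin n) (Fin n) (MvPolynomial (Idx (n + 1) m ⊕ Fin n) ℂ) :=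
  fun i p => pderiv (Sum.inr p) (Phi n m (X (i.succ, fun _ => 0)))

lemma det_Jm (n m : ℕ) (hm : 1 ≤ m) : (Jm n m).det ≠ 0 := by
  classical
  let l0 : Fin m := ⟨0, hm⟩
  let wd : Fin n → (Fin m → Fin (n + 1)) := fun i l => if l = l0 then i.succ else 0
  let pt : Idx (n + 1) m ⊕ Fin n → ℂ :=
    Sum.elim (fun q => if ∃ i : Fin n, q = (i.succ, wd i) then -1 else 0) (fun _ => 0)
  have hwd : ∀ i, wd i ≠ fun _ => 0 := by
    intro i h
    have h1 := congrFun h l0
    simp only [wd, if_true] at h1
    exact Fin.succ_ne_zero i h1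
  have hprod : ∀ i : Fin n, ∏ l, uu n m (wd i l) = X (Sum.inr i) := by
    intro i
    have h1 : ∀ l, uu n m (wd i l) = if l = l0 then X (Sum.inr i) else 1 := by
      intro l
      simp only [wd]
      split_ifs with h
      · rw [uu, Fin.cons_succ]
      · rw [uu, Fin.cons_zero]
    rw [Finset.prod_congr rfl fun l _ => h1 l, Finset.prod_ite_eq' Finset.univ l0,
      if_pos (Finset.mem_univ _)]
  have hev : (MvPolynomial.eval pt).mapMatrix (Jm n m) = 1 := by
    ext i p
    rw [RingHom.mapMatrix_apply, Matrix.map_apply, Jm, Phi, aeval_X]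
    rw [if_pos rfl, map_neg, map_neg, map_sum, map_sum]
    have h1 : ∀ j : Fin m → Fin (n + 1), MvPolynomial.eval pt (pderiv (Sum.inr p)
        (X (Sum.inl (i.succ, j)) * ∏ l, uu n m (j l))) =
        pt (Sum.inl (i.succ, j)) * MvPolynomial.eval pt (pderiv (Sum.inr p)
          (∏ l, uu n m (j l))) := by
      intro j
      rw [pderiv_mul, pderiv_X_of_ne (by simp), zero_mul, zero_add, map_mul, eval_X]
    rw [Finset.sum_congr rfl fun j _ => h1 j, Finset.sum_eq_single (wd i)]
    · have h2 : pt (Sum.inl (i.succ, wd i)) = -1 := by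
        simp only [pt, Sum.elim_inl]
        rw [if_pos ⟨i, rfl⟩]
      rw [h2, hprod, neg_mul, one_mul, neg_neg, pderiv_X]
      by_cases h : i = p
      · subst h
        rw [Pi.single_eq_same, map_one, Matrix.one_apply_eq]
      · rw [Pi.single_eq_of_ne (by simpa using h), map_zero, Matrix.one_apply_ne h]
    · intro j _ hj
      have h2 : pt (Sum.inl (i.succ, j)) = 0 := by
        simp only [pt, Sum.elim_inl]
        rw [if_neg]
        rintro ⟨i', h3⟩
        rw [Prod.mk.injEq, Fin.succ_inj] at h3
        obtain ⟨rfl, rfl⟩ := h3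
        exact hj rfl
      rw [h2, zero_mul]
    · intro h
      rw [Finset.mem_filter] at h
      exact (h ⟨Finset.mem_univ _, hwd i⟩).elim
  intro h0
  have h1 := RingHom.map_det (MvPolynomial.eval pt) (Jm n m)
  rw [h0, map_zero, hev, Matrix.det_one] at h1
  exact zero_ne_one h1

theorem s_IND : S_IND := by
  intro n m hm
  suffices h : ∀ (d : ℕ) (F : UR (n + 1) m), F.totalDegree ≤ d →
      ((0, fun _ => 0) : Idx (n + 1) m) ∉ F.vars → Phi n m F = 0 → F = 0 from
    fun F => h F.totalDegree F le_rfl
  intro d
  induction d with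
  | zero =>
    intro F hd _ hF
    have h1 : F = C (coeff 0 F) := totalDegree_eq_zero_iff_eq_C.1 (Nat.le_zero.1 hd)
    rw [h1, Phi, aeval_C] at hF
    rw [h1]
    have h2 : (C (coeff 0 F) : MvPolynomial (Idx (n + 1) m ⊕ Fin n) ℂ) = 0 := hF
    rw [C_eq_zero] at h2
    rw [h2, map_zero]
  | succ d ih =>
    intro F hd hz hF
    -- the derivatives
    have hzero : ∀ i : Fin n, pderiv ((i.succ, fun _ => 0) : Idx (n + 1) m) F = 0 := by
      have hvec : Matrix.vecMul (fun i : Fin n =>
          Phi n m (pderiv ((i.succ, fun _ => 0) : Idx (n + 1) m) F)) (Jm n m) = 0 := by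
        funext p
        rw [Pi.zero_apply]
        have h1 : pderiv (Sum.inr p) (Phi n m F) = 0 := by rw [hF, map_zero]
        have h2 := chain (fun q => Phi n m (X q)) (Sum.inr p) F
        have h3 : ∀ G : UR (n + 1) m, aeval (fun q => Phi n m (X q)) G = Phi n m G := by
          intro G
          have : (aeval (fun q => Phi n m (X q)) : UR (n + 1) m →ₐ[ℂ] _) = Phi n m := by
            apply MvPolynomial.algHom_ext
            intro q
            rw [aeval_X]
          rw [this]
        simp only [h3] at h2
        rw [h1] at h2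
        have h4 : ∀ q : Idx (n + 1) m, (∀ i : Fin n, q ≠ (i.succ, fun _ => 0)) →
            Phi n m (pderiv q F) * pderiv (Sum.inr p) (Phi n m (X q)) = 0 := by
          rintro ⟨i, j⟩ hq
          by_cases hj : j = fun _ => 0
          · subst hj
            have hi : i = 0 := by
              by_contra hi
              obtain ⟨i', rfl⟩ := Fin.exists_succ_eq.2 hi
              exact hq i' rfl
            subst hi
            rw [pderiv_eq_zero_of_notMem_vars hz, map_zero, zero_mul]
          · have h5 : Phi n m (X (i, j)) = X (Sum.inl (i, j)) := by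
              rw [Phi, aeval_X, if_neg hj]
            rw [h5, pderiv_X_of_ne (by simp), mul_zero]
        rw [Matrix.vecMul, dotProduct]
        have h6 : ∑ i : Fin n, Phi n m (pderiv ((i.succ, fun _ => 0) : Idx (n + 1) m) F) *
            Jm n m i p = ∑ q ∈ Finset.univ.image
              (fun i : Fin n => ((i.succ, fun _ => 0) : Idx (n + 1) m)),
              Phi n m (pderiv q F) * pderiv (Sum.inr p) (Phi n m (X q)) := by
          rw [Finset.sum_image]
          · rfl
          · intro i _ i' _ h
            exact Fin.succ_injective _ (Prod.mk.inj h).1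
        rw [h6, h2]
        refine Finset.sum_subset (Finset.subset_univ _) fun q _ hq => h4 q fun i hi => hq ?_
        exact Finset.mem_image.2 ⟨i, Finset.mem_univ _, hi.symm⟩
      have h1 := Matrix.eq_zero_of_vecMul_eq_zero (det_Jm n m hm) hvec
      intro i
      exact ih _ (totalDegree_pderiv hd _) (notMem_vars_pderiv hz _) (congrFun h1 i)
    have hnot : ∀ i : Fin (n + 1), ((i, fun _ => 0) : Idx (n + 1) m) ∉ F.vars := by
      intro i
      refine Fin.cases hz (fun i' => ?_) i
      exact notMem_vars_of_pderiv (hzero i')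
    have h1 : Phi n m F = rename Sum.inl F := by
      let f₁ : UR (n + 1) m →+* MvPolynomial (Idx (n + 1) m ⊕ Fin n) ℂ := (Phi n m).toRingHom
      let f₂ : UR (n + 1) m →+* MvPolynomial (Idx (n + 1) m ⊕ Fin n) ℂ :=
        (rename Sum.inl : UR (n + 1) m →ₐ[ℂ]
          MvPolynomial (Idx (n + 1) m ⊕ Fin n) ℂ).toRingHom
      have hC : f₁.comp C = f₂.comp C := by
        ext c
        change coeff _ (Phi n m (C c)) = coeff _ (rename Sum.inl (C c))
        rw [Phi, aeval_C, rename_C]
        rfl
      exact hom_congr_vars (f₁ := f₁) (f₂ := f₂) (p₁ := F) (p₂ := F) hC (by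
          rintro ⟨i, j⟩ h _
          have hj : j ≠ fun _ => 0 := by
            rintro rfl
            exact hnot i h
          change Phi n m (X (i, j)) = rename Sum.inl (X (i, j))
          rw [Phi, aeval_X, if_neg hj, rename_X]) rfl
    rw [h1] at hF
    exact (rename_injective _ Sum.inl_injective) (by rw [hF, map_zero])

end Pool.Agent.L7h73.SD
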