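import Pool.Agent.L7h62.SD.Defs

/-!
# The ideal `Rid` is the kernel of `Phi`
-/

set_option autoImplicit false

open MvPolynomial

namespace Pool.Agent.L7h73.SD

open Pool.Agent.L7h62.SD

/-- the coefficients with the words of zeros replaced -/
noncomputable def rep {n m : ℕ} (b : Idx (n + 1) m → ℂ) (u : Fin n → ℂ) :
    Fin (n + 1) → (Fin m → Fin (n + 1)) → ℂ := fun i j =>
  if j = (fun _ => 0) then
    - ∑ j ∈ Finset.univ.filter (fun j : Fin m → Fin (n + 1) => j ≠ fun _ => 0),
      b (i, j) * ∏ l, (Fin.cons 1 u : Fin (n + 1) → ℂ) (j l) else b (i, j)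

lemma aeval_uu {n m : ℕ} (b : Idx (n + 1) m → ℂ) (u : Fin n → ℂ) (i : Fin (n + 1)) :
    aeval (Sum.elim b u) (uu n m i) = (Fin.cons 1 u : Fin (n + 1) → ℂ) i := by
  refine Fin.cases ?_ (fun p => ?_) i
  · rw [uu, Fin.cons_zero, Fin.cons_zero, map_one]
  · rw [uu, Fin.cons_succ, Fin.cons_succ, aeval_X, Sum.elim_inr]

/-- evaluation of `Phi` -/
lemma aeval_Phi {n m : ℕ} (b : Idx (n + 1) m → ℂ) (u : Fin n → ℂ) (F : UR (n + 1) m) :
    aeval (Sum.elim b u) (Phi n m F) = at_ (rep b u) F := by
  have h : (aeval (Sum.elim b u) : MvPolynomial (Idx (n + 1) m ⊕ Fin n) ℂ →ₐ[ℂ] ℂ).comp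
      (Phi n m) = aeval (fun p : Idx (n + 1) m => rep b u p.1 p.2) := by
    apply MvPolynomial.algHom_ext
    intro p
    rw [AlgHom.comp_apply, Phi, aeval_X, aeval_X, rep]
    by_cases hp : p.2 = (fun _ => 0)
    · rw [if_pos hp, if_pos hp, map_neg, map_sum]
      congr 1
      refine Finset.sum_congr rfl fun j _ => ?_
      rw [map_mul, aeval_X, Sum.elim_inl, map_prod]
      congr 1
      exact Finset.prod_congr rfl fun l _ => aeval_uu b u _
    · rw [if_neg hp, if_neg hp, aeval_X, Sum.elim_inl]
  exact congrArg (fun φ => φ F) h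

lemma hasZero_rep {n m : ℕ} (b : Idx (n + 1) m → ℂ) (u : Fin n → ℂ) : HasZero (rep b u) := by
  refine ⟨Fin.cons 1 u, fun h => ?_, fun i => ?_⟩
  · have := congrFun h 0
    rw [Fin.cons_zero, Pi.zero_apply] at this
    exact one_ne_zero this
  · rw [ev, ← Finset.add_sum_erase _ _ (Finset.mem_univ (fun _ => 0 : Fin m → Fin (n + 1)))]
    have h1 : ∏ l : Fin m, (Fin.cons 1 u : Fin (n + 1) → ℂ) ((fun _ => 0 : Fin m → Fin (n + 1)) l)
        = 1 := by
      apply Finset.prod_eq_one
      intro l _
      rw [Fin.cons_zero]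
    rw [h1, mul_one]
    have h2 : rep b u i (fun _ => 0) = - ∑ j ∈ Finset.univ.filter
        (fun j : Fin m → Fin (n + 1) => j ≠ fun _ => 0),
          b (i, j) * ∏ l, (Fin.cons 1 u : Fin (n + 1) → ℂ) (j l) := by
      rw [rep, if_pos rfl]
    have h3 : Finset.univ.filter (fun j : Fin m → Fin (n + 1) => j ≠ fun _ => 0) =
        Finset.univ.erase (fun _ => 0) := by
      ext j
      simp
    rw [h2, h3, neg_add_eq_zero]
    refine Finset.sum_congr rfl fun j hj => ?_
    rw [rep, if_neg (Finset.ne_of_mem_erase hj)]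

/-- the case of a zero with nonzero coordinate `0` -/
lemma at_zero {n m : ℕ} {F : UR (n + 1) m} (hF : Phi n m F = 0)
    (a : Fin (n + 1) → (Fin m → Fin (n + 1)) → ℂ) {x : Fin (n + 1) → ℂ} (hx : x 0 ≠ 0)
    (h : ∀ i, ev (a i) x = 0) : at_ a F = 0 := by
  have h1 := aeval_Phi (fun p => a p.1 p.2) (fun p => (x 0)⁻¹ * x p.succ) F
  rw [hF, map_zero] at h1
  rw [h1]
  congr 1
  have hc : (Fin.cons 1 (fun p => (x 0)⁻¹ * x p.succ) : Fin (n + 1) → ℂ) =
      fun q => (x 0)⁻¹ * x q := by
    funext q
    refine Fin.cases ?_ (fun p => ?_) q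
    · rw [Fin.cons_zero, inv_mul_cancel₀ hx]
    · rw [Fin.cons_succ]
  funext i j
  rw [rep]
  split_ifs with hj
  · subst hj
    rw [hc]
    have h2 := h i
    rw [ev, ← Finset.add_sum_erase _ _ (Finset.mem_univ (fun _ => 0 : Fin m → Fin (n + 1)))]
      at h2
    have h3 : Finset.univ.filter (fun j : Fin m → Fin (n + 1) => j ≠ fun _ => 0) =
        Finset.univ.erase (fun _ => 0) := by
      ext j
      simp
    rw [h3]
    have h4 : ∑ j ∈ Finset.univ.erase (fun _ => 0 : Fin m → Fin (n + 1)),
        a i j * ∏ l, ((x 0)⁻¹ * x (j l)) = ((x 0)⁻¹) ^ m *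
          ∑ j ∈ Finset.univ.erase (fun _ => 0 : Fin m → Fin (n + 1)), a i j * ∏ l, x (j l) := by
      rw [Finset.mul_sum]
      refine Finset.sum_congr rfl fun j _ => ?_
      rw [Finset.prod_mul_distrib, Finset.prod_const, Finset.card_univ, Fintype.card_fin]
      ring
    rw [h4]
    have h5 : ∏ l : Fin m, x ((fun _ => 0 : Fin m → Fin (n + 1)) l) = x 0 ^ m := by
      rw [Finset.prod_const, Finset.card_univ, Fintype.card_fin]
    rw [h5] at h2
    have h6 : (x 0)⁻¹ ^ m * x 0 ^ m = 1 := by
      rw [← mul_pow, inv_mul_cancel₀ hx, one_pow]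
    have h7 : (x 0)⁻¹ ^ m * (a i (fun _ => 0) * x 0 ^ m +
      ∑ j ∈ Finset.univ.erase (fun _ => 0 : Fin m → Fin (n + 1)), a i j * ∏ l, x (j l)) = 0 := by
      rw [h2, mul_zero]
    linear_combination h7 - a i (fun _ => 0) * h6
  · rfl

lemma continuous_at {N m : ℕ} (F : UR N m) {a : ℂ → Fin N → (Fin m → Fin N) → ℂ}
    (ha : ∀ i j, Continuous fun t => a t i j) : Continuous fun t => at_ (a t) F := by
  unfold at_
  simp only [MvPolynomial.aeval_eq_eval]
  exact (MvPolynomial.continuous_eval F).comp (continuous_pi fun p => ha p.1 p.2)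

theorem s_KER : S_KER := by
  intro n m hm F
  constructor
  · intro hF
    apply MvPolynomial.funext
    intro z
    rw [map_zero]
    have h1 := aeval_Phi (fun p => z (Sum.inl p)) (fun p => z (Sum.inr p)) F
    have h2 : Sum.elim (fun p => z (Sum.inl p)) (fun p => z (Sum.inr p)) = z := by
      funext q
      rcases q with q | q <;> rfl
    rw [h2, MvPolynomial.aeval_eq_eval] at h1
    have h3 : at_ (rep (fun p => z (Sum.inl p)) (fun p => z (Sum.inr p))) F = 0 :=
      hF _ (hasZero_rep _ _)
    rw [h3] at h1
    exact h1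
  · rintro hF a ⟨x, hx, hz⟩
    by_cases h0 : x 0 ≠ 0
    · exact at_zero hF a h0 hz
    · push Not at h0
      obtain ⟨p, hp⟩ : ∃ p, x p ≠ 0 := by
        by_contra hcon
        push Not at hcon
        exact hx (funext hcon)
      have hp0 : p ≠ 0 := by
        rintro rfl
        exact hp h0
      let y : ℂ → Fin (n + 1) → ℂ := fun t => Function.update x 0 t
      have hy0 : ∀ t, y t 0 = t := fun t => Function.update_self _ _ _
      have hyp : ∀ t, y t p = x p := fun t => Function.update_of_ne hp0 _ _
      let b : ℂ → Fin (n + 1) → (Fin m → Fin (n + 1)) → ℂ := fun t i j =>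
        if j = (fun _ => p) then a i j - ev (a i) (y t) / x p ^ m else a i j
      have hyc : ∀ q, Continuous fun t => y t q := by
        intro q
        by_cases hq : q = 0
        · subst hq
          simp only [hy0]
          exact continuous_id
        · have : (fun t => y t q) = fun _ => x q := by
            funext t
            exact Function.update_of_ne hq _ _
          rw [this]
          exact continuous_const
      have hevc : ∀ i, Continuous fun t => ev (a i) (y t) := by
        intro i
        unfold ev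
        exact continuous_finsetSum _ fun j _ => continuous_const.mul
          (continuous_finsetProd _ fun l _ => hyc (j l))
      have hb : ∀ i j, Continuous fun t => b t i j := by
        intro i j
        by_cases hj : j = fun _ => p
        · simp only [b, if_pos hj]
          exact continuous_const.sub ((hevc i).div_const _)
        · simp only [b, if_neg hj]
          exact continuous_const
      have hbz : ∀ t i, ev (b t i) (y t) = 0 := by
        intro t i
        rw [ev, ← Finset.add_sum_erase _ _ (Finset.mem_univ (fun _ => p : Fin m → Fin (n + 1)))]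
        have h1 : ∏ l : Fin m, y t ((fun _ => p : Fin m → Fin (n + 1)) l) = x p ^ m := by
          simp only [hyp]
          rw [Finset.prod_const, Finset.card_univ, Fintype.card_fin]
        have h2 : b t i (fun _ => p) = a i (fun _ => p) - ev (a i) (y t) / x p ^ m := by
          simp only [b, if_true]
        have h3 : ∑ j ∈ Finset.univ.erase (fun _ => p : Fin m → Fin (n + 1)),
            b t i j * ∏ l, y t (j l) = ∑ j ∈ Finset.univ.erase
              (fun _ => p : Fin m → Fin (n + 1)), a i j * ∏ l, y t (j l) := by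
          refine Finset.sum_congr rfl fun j hj => ?_
          simp only [b, if_neg (Finset.ne_of_mem_erase hj)]
        have h4 : ev (a i) (y t) = a i (fun _ => p) * x p ^ m + ∑ j ∈ Finset.univ.erase
              (fun _ => p : Fin m → Fin (n + 1)), a i j * ∏ l, y t (j l) := by
          rw [ev, ← Finset.add_sum_erase _ _
            (Finset.mem_univ (fun _ => p : Fin m → Fin (n + 1))), h1]
        rw [h1, h2, h3, sub_mul, div_mul_cancel₀ _ (pow_ne_zero m hp), h4]
        ring
      have hb0 : b 0 = a := by
        funext i j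
        simp only [b]
        have : y 0 = x := by
          funext q
          by_cases hq : q = 0
          · subst hq
            rw [hy0, h0]
          · exact Function.update_of_ne hq _ _
        rw [this, hz i, zero_div, sub_zero, ite_self]
      have h1 : ∀ t, t ≠ 0 → at_ (b t) F = 0 := fun t ht =>
        at_zero hF (b t) (x := y t) (by rw [hy0]; exact ht) (hbz t)
      have h2 := continuous_at F hb
      have h3 : (fun t => at_ (b t) F) = fun _ => 0 := by
        refine Continuous.ext_on (dense_compl_singleton (0 : ℂ)) h2 continuous_const ?_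
        intro t ht
        exact h1 t ht
      have h4 := congrFun h3 0
      simp only [hb0] at h4
      exact h4

end Pool.Agent.L7h73.SD
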