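import Pool.Agent.L7h62.SD.Defs

/-!
# The minors of the Macaulay matrix
-/

set_option autoImplicit false

open MvPolynomial

namespace Pool.Agent.L7h73.SD

open Pool.Agent.L7h62.SD

section Frm

variable {R : Type*} [CommRing R] {N m : ℕ}

/-- the form with the coefficients `b` -/
noncomputable def frm (b : (Fin m → Fin N) → R) : MvPolynomial (Fin N) R :=
  ∑ j : Fin m → Fin N, C (b j) * ∏ l, X (j l)

lemma eval_frm (b : (Fin m → Fin N) → R) (x : Fin N → R) : MvPolynomial.eval x (frm b) = ev b x := by
  rw [frm, ev, map_sum]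
  refine Finset.sum_congr rfl fun j _ => ?_
  rw [map_mul, eval_C, map_prod]
  congr 1
  exact Finset.prod_congr rfl fun l _ => eval_X _

lemma map_frm {S : Type*} [CommRing S] (φ : R →+* S) (b : (Fin m → Fin N) → R) :
    MvPolynomial.map φ (frm b) = frm fun j => φ (b j) := by
  rw [frm, frm, map_sum]
  refine Finset.sum_congr rfl fun j _ => ?_
  rw [map_mul, map_C, map_prod]
  congr 1
  exact Finset.prod_congr rfl fun l _ => map_X _ _

lemma frm_hom (b : (Fin m → Fin N) → R) : (frm b).IsHomogeneous m := by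
  refine IsHomogeneous.sum _ _ _ fun j _ => ?_
  have h1 : (C (b j) : MvPolynomial (Fin N) R).IsHomogeneous 0 := isHomogeneous_C _ _
  have h2 : (∏ l, X (j l) : MvPolynomial (Fin N) R).IsHomogeneous (∑ _l : Fin m, 1) :=
    IsHomogeneous.prod _ _ _ fun l _ => isHomogeneous_X _ _
  have h3 := h1.mul h2
  rw [Finset.sum_const, Finset.card_univ, Fintype.card_fin, smul_eq_mul, mul_one, zero_add] at h3
  exact h3

/-- the monomials of degree `D` -/
abbrev Mon (N D : ℕ) : Type :=
  {e : Fin N →₀ ℕ // e ∈ (Finset.univ : Finset (Fin N)).finsuppAntidiag D}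

lemma mem_mon {D : ℕ} {e : Fin N →₀ ℕ} :
    e ∈ (Finset.univ : Finset (Fin N)).finsuppAntidiag D ↔ e.degree = D := by
  rw [Finset.mem_finsuppAntidiag, Finsupp.degree_eq_sum]
  exact and_iff_left (Finset.subset_univ _)

/-- the matrix of Macaulay -/
noncomputable def Mt (D : ℕ) (b : Fin N → (Fin m → Fin N) → R) :
    Matrix (Mon N D) (Fin N × Mon N (D - m)) R :=
  fun e q => coeff e.1 (monomial q.2.1 1 * frm (b q.1))

lemma Mt_map {S : Type*} [CommRing S] (φ : R →+* S) (D : ℕ) (b : Fin N → (Fin m → Fin N) → R)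
    (e : Mon N D) (q : Fin N × Mon N (D - m)) :
    φ (Mt D b e q) = Mt D (fun i j => φ (b i j)) e q := by
  rw [Mt, Mt, ← coeff_map, map_mul, map_frm, map_monomial, map_one]

lemma monomial_mul_hom (s : Fin N →₀ ℕ) (b : (Fin m → Fin N) → R) :
    (monomial s 1 * frm b).IsHomogeneous (s.degree + m) :=
  (isHomogeneous_monomial _ rfl).mul (frm_hom b)

/-- a common zero gives a relation between the rows -/
lemma rel {D : ℕ} (hD : m ≤ D) (b : Fin N → (Fin m → Fin N) → R) (x : Fin N → R)
    (hx : ∀ i, ev (b i) x = 0) :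
    Matrix.vecMul (fun e : Mon N D => ∏ i, x i ^ e.1 i) (Mt D b) = 0 := by
  funext q
  rw [Pi.zero_apply, Matrix.vecMul, dotProduct]
  set P : MvPolynomial (Fin N) R := monomial q.2.1 1 * frm (b q.1) with hP
  have hPh : P.IsHomogeneous D := by
    have h1 := monomial_mul_hom q.2.1 (b q.1)
    rw [mem_mon.1 q.2.2, Nat.sub_add_cancel hD] at h1
    exact h1
  have h1 : MvPolynomial.eval x P = 0 := by
    rw [hP, map_mul, eval_frm, hx, mul_zero]
  rw [eval_eq'] at h1
  rw [← h1]
  have h2 : ∑ e : Mon N D, (∏ i, x i ^ e.1 i) * Mt D b e q =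
      ∑ e : Mon N D, coeff e.1 P * ∏ i, x i ^ e.1 i :=
    Finset.sum_congr rfl fun e _ => mul_comm _ _
  rw [h2, Finset.sum_coe_sort ((Finset.univ : Finset (Fin N)).finsuppAntidiag D)
    (fun e : Fin N →₀ ℕ => coeff e P * ∏ i, x i ^ e i)]
  symm
  refine Finset.sum_subset (fun e he => ?_) fun e _ he => ?_
  · rw [mem_mon]
    by_contra h
    exact (mem_support_iff.1 he) (hPh.coeff_eq_zero h)
  · rw [mem_support_iff, not_not] at he
    rw [he, zero_mul]

end Frm

/-- a spanning family contains a basis -/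
lemma exists_minor {L : Type*} [Field L] {ι κ : Type*} [Fintype ι] [DecidableEq ι]
    (A : Matrix ι κ L) (hA : Submodule.span L (Set.range fun q : κ => fun e => A e q) = ⊤) :
    ∃ c : ι → κ, (A.submatrix id c).det ≠ 0 := by
  obtain ⟨b, hb1, hb2, hb3⟩ := exists_linearIndependent L (Set.range fun q : κ => fun e => A e q)
  rw [hA] at hb2
  let B : Module.Basis b L (ι → L) := Module.Basis.mk hb3 (by rw [Subtype.range_coe, hb2])
  let _ : Fintype b := Module.Basis.fintypeIndexOfRankLtAleph0 B (Module.rank_lt_aleph0 L _)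
  have hcard : Fintype.card ι = Fintype.card b := by
    have h1 := Module.finrank_eq_card_basis B
    rw [Module.finrank_fintype_fun_eq_card] at h1
    exact h1
  let ε : ι ≃ b := Fintype.equivOfCardEq hcard
  have h2 : ∀ e : ι, ∃ q : κ, (fun e' => A e' q) = (ε e : ι → L) := fun e => hb1 (ε e).2
  choose c hc using h2
  refine ⟨c, ?_⟩
  have h3 : LinearIndependent L (A.submatrix id c).col := by
    have h4 : (A.submatrix id c).col = (fun x : b => (x : ι → L)) ∘ ε := by
      funext e
      rw [Function.comp_apply, ← hc e]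
      rfl
    rw [h4]
    exact hb3.comp _ ε.injective
  rw [Matrix.linearIndependent_cols_iff_isUnit, Matrix.isUnit_iff_isUnit_det] at h3
  exact h3.ne_zero

/-- all monomials of high degree are combinations of the columns -/
lemma span_cols {N m : ℕ} (hm : 1 ≤ m) {L : Type*} [Field L] [IsAlgClosed L]
    (a : Fin N → (Fin m → Fin N) → L) (ha : ¬ HasZero a) :
    ∃ D, m ≤ D ∧ Submodule.span L (Set.range fun q : Fin N × Mon N (D - m) =>
      fun e => Mt D a e q) = ⊤ := by
  classical
  set I : Ideal (MvPolynomial (Fin N) L) := Ideal.span (Set.range fun i => frm (a i)) with hI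
  have hX : ∀ j, ∃ M : ℕ, (X j : MvPolynomial (Fin N) L) ^ M ∈ I := by
    intro j
    have h1 : (X j : MvPolynomial (Fin N) L) ∈ I.radical := by
      rw [← MvPolynomial.vanishingIdeal_zeroLocus_eq_radical (K := L)]
      intro x hx
      have h2 : ∀ i, ev (a i) x = 0 := by
        intro i
        have h3 := hx (frm (a i)) (Ideal.subset_span ⟨i, rfl⟩)
        rw [← eval_frm, ← h3, MvPolynomial.aeval_eq_eval]
      have h3 : x = 0 := by
        by_contra hne
        exact ha ⟨x, hne, h2⟩
      rw [aeval_X, h3, Pi.zero_apply]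
    exact h1
  choose M hM using hX
  set M' : ℕ := ∑ j, M j with hM'
  refine ⟨N * M' + m, Nat.le_add_left _ _, ?_⟩
  rw [eq_top_iff]
  intro v _
  have hv : v = ∑ e, v e • Pi.single e (1 : L) := by
    funext e
    rw [Finset.sum_apply, Finset.sum_eq_single e]
    · rw [Pi.smul_apply, Pi.single_eq_same, smul_eq_mul, mul_one]
    · intro e' _ h
      rw [Pi.smul_apply, Pi.single_eq_of_ne (Ne.symm h), smul_zero]
    · intro h; exact absurd (Finset.mem_univ _) h
  rw [hv]
  refine Submodule.sum_mem _ fun e _ => Submodule.smul_mem _ _ ?_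
  -- the monomial is in the ideal
  have hdeg := mem_mon.1 e.2
  rw [Finsupp.degree_eq_sum] at hdeg
  obtain ⟨j, hj⟩ : ∃ j, M j ≤ e.1 j := by
    by_contra hcon
    push Not at hcon
    have h1 : ∑ i, e.1 i ≤ ∑ _i : Fin N, M' := by
      refine Finset.sum_le_sum fun i _ => ?_
      exact (hcon i).le.trans (Finset.single_le_sum (fun _ _ => Nat.zero_le _) (Finset.mem_univ i))
    rw [Finset.sum_const, Finset.card_univ, Fintype.card_fin, smul_eq_mul] at h1
    omega
  have hmon : (monomial e.1 1 : MvPolynomial (Fin N) L) ∈ I := by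
    have h1 : (monomial e.1 1 : MvPolynomial (Fin N) L) =
        monomial (e.1 - Finsupp.single j (M j)) 1 * X j ^ M j := by
      rw [X_pow_eq_monomial, monomial_mul, mul_one, tsub_add_cancel_of_le]
      rw [Finsupp.single_le_iff]
      exact hj
    rw [h1]
    exact I.mul_mem_left _ (hM j)
  rw [hI, Ideal.mem_span_range_iff_exists_fun] at hmon
  obtain ⟨h, hh⟩ := hmon
  rw [Submodule.mem_span_range_iff_exists_fun]
  refine ⟨fun q => coeff q.2.1 (h q.1), ?_⟩
  funext e'
  rw [Finset.sum_apply]
  have hcoef : ∀ i, coeff e'.1 (h i * frm (a i)) =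
      ∑ s : Mon N (N * M' + m - m), coeff s.1 (h i) * Mt (N * M' + m) a e' (i, s) := by
    intro i
    have h1 : h i * frm (a i) = ∑ s ∈ (h i).support, C (coeff s (h i)) *
        (monomial s 1 * frm (a i)) := by
      conv_lhs => rw [(h i).as_sum]
      rw [Finset.sum_mul]
      refine Finset.sum_congr rfl fun s _ => ?_
      rw [← mul_assoc, C_mul_monomial, mul_one]
    rw [h1, coeff_sum]
    simp only [coeff_C_mul]
    have h2 : ∑ s : Mon N (N * M' + m - m), coeff s.1 (h i) * Mt (N * M' + m) a e' (i, s) =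
        ∑ s ∈ (Finset.univ : Finset (Fin N)).finsuppAntidiag (N * M' + m - m),
          coeff s (h i) * coeff e'.1 (monomial s 1 * frm (a i)) := by
      rw [← Finset.sum_coe_sort ((Finset.univ : Finset (Fin N)).finsuppAntidiag
        (N * M' + m - m)) (fun s : Fin N →₀ ℕ => coeff s (h i) *
          coeff e'.1 (monomial s 1 * frm (a i)))]
      rfl
    rw [h2]
    have h3 : ∀ s, s ∉ (Finset.univ : Finset (Fin N)).finsuppAntidiag (N * M' + m - m) →
        coeff e'.1 (monomial s 1 * frm (a i)) = 0 := by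
      intro s hs
      apply (monomial_mul_hom s (a i)).coeff_eq_zero
      rw [mem_mon.1 e'.2]
      rw [mem_mon] at hs
      omega
    have h4 : ∑ s ∈ (h i).support, coeff s (h i) * coeff e'.1 (monomial s 1 * frm (a i)) =
        ∑ s ∈ (h i).support ∪ (Finset.univ : Finset (Fin N)).finsuppAntidiag (N * M' + m - m),
          coeff s (h i) * coeff e'.1 (monomial s 1 * frm (a i)) := by
      refine Finset.sum_subset Finset.subset_union_left fun s _ hs => ?_
      rw [notMem_support_iff.1 hs, zero_mul]
    rw [h4]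
    symm
    refine Finset.sum_subset Finset.subset_union_right fun s _ hs => ?_
    rw [h3 s hs, mul_zero]
  have h5 := congrArg (coeff e'.1) hh
  rw [coeff_sum, Finset.sum_congr rfl fun i _ => hcoef i, coeff_monomial] at h5
  rw [Fintype.sum_prod_type]
  simp only [Pi.smul_apply, smul_eq_mul]
  rw [h5]
  by_cases he : e = e'
  · subst he
    rw [if_pos rfl, Pi.single_eq_same]
  · rw [if_neg (fun h => he (Subtype.ext h)), Pi.single_eq_of_ne (Ne.symm he)]

theorem s_MAC : S_MAC := by
  intro N m hm L _ _ _ a ha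
  classical
  obtain ⟨D, hD, hspan⟩ := span_cols hm a ha
  obtain ⟨c, hc⟩ := exists_minor (Mt D a) hspan
  set G : Matrix (Mon N D) (Fin N × Mon N (D - m)) (UR N m) :=
    Mt D (fun i j => (X (i, j) : UR N m)) with hG
  have hmap : ∀ {L' : Type} [Field L'] [Algebra ℂ L'] (a' : Fin N → (Fin m → Fin N) → L'),
      at_ a' ((G.submatrix id c).det) = ((Mt D a').submatrix id c).det := by
    intro L' _ _ a'
    have h1 : at_ a' ((G.submatrix id c).det) =
        (aeval (fun p : Idx N m => a' p.1 p.2)).toRingHom ((G.submatrix id c).det) := rfl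
    rw [h1, RingHom.map_det]
    congr 1
    ext e e'
    rw [RingHom.mapMatrix_apply, Matrix.map_apply, Matrix.submatrix_apply, Matrix.submatrix_apply,
      hG, Mt_map]
    congr 1
    funext i j
    exact aeval_X _ _
  refine ⟨(G.submatrix id c).det, ?_, ?_⟩
  · intro a' ha'
    rw [hmap]
    obtain ⟨x, hx, hz⟩ := ha'
    rw [← Matrix.exists_vecMul_eq_zero_iff]
    refine ⟨fun e : Mon N D => ∏ i, x i ^ e.1 i, ?_, ?_⟩
    · obtain ⟨j, hj⟩ : ∃ j, x j ≠ 0 := by
        by_contra hcon
        push Not at hcon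
        exact hx (funext hcon)
      intro h0
      have h1 := congrFun h0 ⟨Finsupp.single j D, mem_mon.2 (Finsupp.degree_single _ _)⟩
      simp only [Pi.zero_apply] at h1
      rw [Finset.prod_eq_single j] at h1
      · rw [Finsupp.single_eq_same] at h1
        exact pow_ne_zero D hj h1
      · intro i _ hij
        rw [Finsupp.single_eq_of_ne hij, pow_zero]
      · intro h; exact absurd (Finset.mem_univ _) h
    · have h1 := rel hD a' x hz
      funext e
      exact congrFun h1 (c e)
  · rw [hmap]
    exact hc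

end Pool.Agent.L7h73.SD
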